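import Mathlib
import Pool.Agent.Y575.LD.Bound
import Pool.Agent.Y575.LD.Main

/-!
# MP_cba831_lc: small first-countable Dowker spaces without Lusin sets

In the Hechler model `𝔟 > ℵ₁`, so all sets of reals of size `ℵ₁` are meager and there is no Lusin
set. One of the Cohen reals codes a ladder system on `ω₁` such that any two uncountable sets are
both met infinitely often by one of the ladders; this survives the rest of the iteration. Such a
ladder system gives a first-countable, locally countable Dowker space on `ω₁ × ω`.

The forcing language is the one of `Pool.Agent.Helper669.Forcing`; the principles are in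
`Pool.Agent.Y575.LD.Defs` and, as sentences of the forcing language, in
`Pool.Agent.Y575.LD.FDefs`.
-/

set_option autoImplicit false

namespace Pool.Agent.Results.MP_cba831_lc.DowkerWithoutLusin

open Cardinal Pool.Agent.Helper669.Forcing Pool.Agent.Y575.MA Pool.Agent.Y575.LD

/-- There is a forcing notion `P` satisfying the countable chain condition, all of whose conditions
force that all cardinals of the ground model are preserved, that the ladder principle `LadderPr`
holds and that `𝔟 > ℵ₁` (`BGt`). The ladder principle and `𝔟 > ℵ₁` together imply that there is a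
first-countable, locally countable Dowker space of cardinality `ℵ₁` and that there is no Lusin
set. -/
theorem result :
    (∃ (P : Type) (_ : Preorder P), Nonempty P ∧
      (∀ A : Set P, (∀ a ∈ A, ∀ b ∈ A, a ≠ b → ¬ ∃ s, s ≤ a ∧ s ≤ b) → A.Countable) ∧
      ∀ p : P, p ∈ CardinalsPreserved.{0, 0} P ∧ p ∈ FLadder P ∧ p ∈ FBGt P) ∧
    (LadderPr → BGt →
      (∃ (X : Type) (τ : TopologicalSpace X), @IsDowker X τ ∧ @FirstCountableTopology X τ ∧
        @LocallyCountable X τ ∧ #X = ℵ₁) ∧
      ¬ ∃ L : Set ℝ, IsLusin L) := by
  refine ⟨⟨P2, inferInstance, inferInstance, fun A hA => ?_, fun p => ⟨?_, ?_, ?_⟩⟩,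
    fun h1 h2 => ⟨dowker_of_ladder h1, lusin_of_bgt h2⟩⟩
  · by_contra hcount
    have hcount' : ¬ Countable A := hcount
    obtain ⟨y, y', hne, h⟩ := cond_ccc (Q := Q2) (fun a : A => a.1) hcount'
    exact hA y.1 y.2 y'.1 y'.2 (fun h' => hne (Subtype.ext h')) h
  · exact cardinalsPreserved (Q := Q2) p
  · exact ladder2 p
  · exact bgt p

end Pool.Agent.Results.MP_cba831_lc.DowkerWithoutLusin
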